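import Pool.Agent.Helper32.SJ.Sketch

set_option autoImplicit false

/-!
Fast Johnson-Lindenstrauss maps for sparse vectors: signed bucket sums followed by the fast dense
transform.
-/

namespace Pool.Agent.FJL

open Finset Pool.Agent.Helper67.JL

theorem nsq_nonneg' {J : Type} [Fintype J] (x : J → ℝ) : 0 ≤ nsq x :=
  sum_nonneg fun _ _ => sq_nonneg _

/-- A small deviation of the squared norm gives the JL event. -/
theorem JLok_of_dev {K J : Type} [Fintype K] [Fintype J] (ε : ℝ) (hε : 0 < ε) (hε1 : ε < 1)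
    (A : K → J → ℝ) (x : J → ℝ) (h : |nsq (app A x) - nsq x| ≤ ε * nsq x) : JLok ε A x := by
  have h0 := nsq_nonneg' x
  rw [abs_le] at h
  constructor
  · rw [← Real.sqrt_sq (show 0 ≤ 1 - ε by linarith), ← Real.sqrt_mul (sq_nonneg _)]
    apply Real.sqrt_le_sqrt
    nlinarith [h.1, mul_nonneg hε.le h0]
  · rw [← Real.sqrt_sq (show 0 ≤ 1 + ε by linarith), ← Real.sqrt_mul (sq_nonneg _)]
    apply Real.sqrt_le_sqrt
    nlinarith [h.2, mul_nonneg hε.le h0, mul_nonneg (mul_nonneg hε.le hε.le) h0]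

/-- The signed bucket sums have the JL property. -/
theorem pr_sketch (d D : ℕ) [NeZero D] (x : Fin d → ℝ) (ε δ : ℝ) (hε : 0 < ε) (hε1 : ε < 1)
    (hD : 2 ≤ δ * (D * ε ^ 2)) :
    pr (fun ω : (Fin d → Fin D) × (Fin d → Bool) => ¬ JLok ε (Smat ω.1 ω.2) x) ≤ δ := by
  classical
  have hD0 : (0 : ℝ) < D := Nat.cast_pos.mpr (Nat.pos_of_ne_zero (NeZero.ne D))
  have hδ : 0 ≤ δ := by
    by_contra hcon
    push Not at hcon
    nlinarith [mul_pos hD0 (pow_pos hε 2)]
  rcases (nsq_nonneg' x).eq_or_lt with hx | hx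
  · refine le_trans (pr_mono (q := fun _ => False) ?_) ?_
    · intro ω hω
      exact hω (JLok_zero ε _ x hx.symm)
    · rw [pr_false]
      exact hδ
  · have h1 := ex_sketch d D x
    rw [pr_def]
    have h2 : ex (fun ω : (Fin d → Fin D) × (Fin d → Bool) =>
        if ¬ JLok ε (Smat ω.1 ω.2) x then (1 : ℝ) else 0) ≤
        ex (fun ω : (Fin d → Fin D) × (Fin d → Bool) =>
          ((ε * nsq x) ^ 2)⁻¹ * (nsq (app (Smat ω.1 ω.2) x) - nsq x) ^ 2) := by
      apply ex_mono
      intro ω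
      have hpos : 0 < (ε * nsq x) ^ 2 := by positivity
      by_cases hω : JLok ε (Smat ω.1 ω.2) x
      · simp only [hω, not_true_eq_false, if_false]
        positivity
      · simp only [hω, not_false_eq_true, if_true]
        have h3 : ε * nsq x < |nsq (app (Smat ω.1 ω.2) x) - nsq x| := by
          by_contra hcon
          push Not at hcon
          exact hω (JLok_of_dev ε hε hε1 _ x hcon)
        rw [inv_mul_eq_div, le_div_iff₀ hpos, one_mul, ← sq_abs (nsq (app (Smat ω.1 ω.2) x) - nsq x)]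
        apply pow_le_pow_left₀ (by positivity) h3.le
    refine h2.trans ?_
    rw [ex_mul_left, inv_mul_eq_div, div_le_iff₀ (by positivity)]
    refine h1.trans ?_
    rw [div_le_iff₀ hD0]
    nlinarith [mul_pos hx hx, mul_le_mul_of_nonneg_right hD (mul_pos hx hx).le]

/-- The JL events compose. -/
theorem JLok_comp {K I J : Type} [Fintype K] [Fintype I] [Fintype J] (ε : ℝ) (hε : 0 < ε)
    (hε1 : ε < 1) (B : K → I → ℝ) (A : I → J → ℝ) (x : J → ℝ) (hA : JLok (ε / 3) A x)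
    (hB : JLok (ε / 3) B (app A x)) : JLok ε (mul2 B A) x := by
  unfold JLok at *
  rw [app_mul2]
  have h0 := Real.sqrt_nonneg (nsq x)
  have h1 := Real.sqrt_nonneg (nsq (app A x))
  obtain ⟨a1, a2⟩ := hA
  obtain ⟨b1, b2⟩ := hB
  constructor
  · refine le_trans ?_ b1
    have : (1 - ε / 3) * ((1 - ε / 3) * Real.sqrt (nsq x)) ≤
        (1 - ε / 3) * Real.sqrt (nsq (app A x)) :=
      mul_le_mul_of_nonneg_left a1 (by linarith)
    refine le_trans ?_ this
    nlinarith [mul_nonneg hε.le h0, mul_nonneg (mul_nonneg hε.le hε.le) h0]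
  · refine b2.trans ?_
    have : (1 + ε / 3) * Real.sqrt (nsq (app A x)) ≤
        (1 + ε / 3) * ((1 + ε / 3) * Real.sqrt (nsq x)) :=
      mul_le_mul_of_nonneg_left a2 (by linarith)
    refine this.trans ?_
    nlinarith [mul_nonneg hε.le h0, mul_nonneg (mul_nonneg hε.le (sub_nonneg.mpr hε1.le)) h0]

/-- Sparse inputs: one signed bucket sum per column, then a straight-line program. -/
theorem main_sparse : ∃ (C : ℝ) (c : ℕ), 0 < C ∧ ∀ (d : ℕ) (ε P : ℝ), 1 ≤ d → 0 < ε → ε < 1 →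
    0 < P → P ≤ 1 / 2 → ∃ (k D : ℕ) (Ω : Type) (_ : Fintype Ω) (_ : Nonempty Ω)
      (B : Ω → Fin k → Fin D → ℝ) (h : Ω → Fin d → Fin D) (s : Ω → Fin d → Bool),
      (k : ℝ) ≤ C * Real.log (1 / P) / ε ^ 2 ∧ (D : ℝ) ≤ C / (ε ^ 2 * P) ∧
      (∀ x : Fin d → ℝ, pr (fun ω => ¬ JLok ε (mul2 (B ω) (Smat (h ω) (s ω))) x) ≤ P) ∧
      ∀ ω, ∃ t : ℕ, (t : ℝ) ≤ C / (ε ^ 2 * P) * (1 + Real.log d) ^ c ∧ SLP t (B ω) := by
  classical
  obtain ⟨C, c, hC, hmain⟩ := main
  refine ⟨18 * C + C * (37 + 18 * C) + 37, c, by positivity, ?_⟩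
  intro d ε P hd hε hε1 hP hP2
  have hε2 : 0 < ε ^ 2 := by positivity
  have hεP : 0 < ε ^ 2 * P := by positivity
  have hεP1 : ε ^ 2 * P ≤ 1 := by nlinarith
  have hlog2 : 0.69 < Real.log 2 := by have := Real.log_two_gt_d9; linarith
  have hlogP : Real.log 2 ≤ Real.log (1 / P) := by
    apply Real.log_le_log (by norm_num)
    rw [le_div_iff₀ hP]
    linarith
  have hlogP0 : 0 < Real.log (1 / P) := by linarith
  have hlogP1 : Real.log (1 / P) ≤ 1 / P := by
    have := Real.log_le_sub_one_of_pos (show (0 : ℝ) < 1 / P by positivity)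
    linarith
  have hl0 : 0 ≤ Real.log d := Real.log_nonneg (by exact_mod_cast hd)
  have hlc : (1 : ℝ) ≤ (1 + Real.log d) ^ c := one_le_pow₀ (by linarith)
  -- the number of buckets
  set D := ⌈36 / (ε ^ 2 * P)⌉₊ with hDdef
  have hD1 : 36 / (ε ^ 2 * P) ≤ D := Nat.le_ceil _
  have hD2 : (D : ℝ) ≤ 37 / (ε ^ 2 * P) := by
    have h1 := (Nat.ceil_lt_add_one (show 0 ≤ 36 / (ε ^ 2 * P) by positivity)).le
    rw [← hDdef] at h1
    refine h1.trans ?_
    have h2 : 1 ≤ 1 / (ε ^ 2 * P) := by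
      rw [le_div_iff₀ hεP]
      linarith
    have h3 : 37 / (ε ^ 2 * P) = 36 / (ε ^ 2 * P) + 1 / (ε ^ 2 * P) := by ring
    rw [h3]
    linarith
  have hDpos : 0 < D := by
    rw [hDdef, Nat.ceil_pos]
    positivity
  -- bound for the dimension
  have hkbound : ∀ (k : ℕ) (e p : ℝ), (k : ℝ) ≤ C * Real.log (1 / p) / e ^ 2 →
      (e = ε / 3 ∧ p = P / 2 ∨ e = ε ∧ p = P) → (k : ℝ) ≤ 18 * C * Real.log (1 / P) / ε ^ 2 := by
    intro k e p hk hep
    refine hk.trans ?_
    rcases hep with ⟨rfl, rfl⟩ | ⟨rfl, rfl⟩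
    · have h1 : Real.log (1 / (P / 2)) ≤ 2 * Real.log (1 / P) := by
        rw [show 1 / (P / 2) = 2 * (1 / P) by field_simp, Real.log_mul (by norm_num)
          (by positivity)]
        linarith
      have h2 : C * Real.log (1 / (P / 2)) ≤ C * (2 * Real.log (1 / P)) :=
        mul_le_mul_of_nonneg_left h1 hC.le
      calc C * Real.log (1 / (P / 2)) / (ε / 3) ^ 2 ≤ C * (2 * Real.log (1 / P)) / (ε / 3) ^ 2 :=
            div_le_div_of_nonneg_right h2 (by positivity)
        _ = 18 * C * Real.log (1 / P) / ε ^ 2 := by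
            field_simp
            ring
    · apply div_le_div_of_nonneg_right _ (by positivity)
      nlinarith [mul_pos hC hlogP0]
  have hk' : ∀ k : ℕ, (k : ℝ) ≤ 18 * C * Real.log (1 / P) / ε ^ 2 →
      (k : ℝ) ≤ (18 * C + C * (37 + 18 * C) + 37) * Real.log (1 / P) / ε ^ 2 := by
    intro k hk
    refine hk.trans ?_
    apply div_le_div_of_nonneg_right _ hε2.le
    apply mul_le_mul_of_nonneg_right _ hlogP0.le
    nlinarith [mul_pos hC hC]
  have hk'' : ∀ k : ℕ, (k : ℝ) ≤ 18 * C * Real.log (1 / P) / ε ^ 2 →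
      (k : ℝ) ≤ 18 * C / (ε ^ 2 * P) := by
    intro k hk
    refine hk.trans ?_
    have h1 : 18 * C / (ε ^ 2 * P) = 18 * C * (1 / P) / ε ^ 2 := by
      field_simp
    rw [h1]
    apply div_le_div_of_nonneg_right _ hε2.le
    exact mul_le_mul_of_nonneg_left hlogP1 (by positivity)
  -- bound for the cost
  have hcost' : ∀ (n k : ℕ) (t : ℕ), 1 ≤ n → n ≤ d → n ≤ D →
      (k : ℝ) ≤ 18 * C / (ε ^ 2 * P) → (t : ℝ) ≤ C * (n + k) * (1 + Real.log n) ^ c →
      (t : ℝ) ≤ (18 * C + C * (37 + 18 * C) + 37) / (ε ^ 2 * P) * (1 + Real.log d) ^ c := by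
    intro n k t hn1 hnd hnD hk ht
    refine ht.trans ?_
    have hln : Real.log n ≤ Real.log d :=
      Real.log_le_log (by exact_mod_cast hn1) (by exact_mod_cast hnd)
    have hln0 : 0 ≤ Real.log n := Real.log_nonneg (by exact_mod_cast hn1)
    have hnD' : (n : ℝ) ≤ 37 / (ε ^ 2 * P) := le_trans (by exact_mod_cast hnD) hD2
    apply mul_le_mul _ (pow_le_pow_left₀ (by linarith) (by linarith) c) (by positivity)
      (by positivity)
    calc C * (n + k) ≤ C * (37 / (ε ^ 2 * P) + 18 * C / (ε ^ 2 * P)) := by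
          apply mul_le_mul_of_nonneg_left _ hC.le
          linarith
      _ = C * (37 + 18 * C) / (ε ^ 2 * P) := by ring
      _ ≤ (18 * C + C * (37 + 18 * C) + 37) / (ε ^ 2 * P) := by
          apply div_le_div_of_nonneg_right _ hεP.le
          nlinarith
  by_cases hcase : D ≤ d
  · -- signed bucket sums into `D` cells, then the dense transform
    obtain ⟨k, Ω, fΩ, nΩ, A, hk, hJL, hcost⟩ := hmain D (ε / 3) (P / 2) hDpos (by positivity)
      (by linarith) (by positivity) (by linarith)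
    have : NeZero D := ⟨hDpos.ne'⟩
    have hk2 := hkbound k (ε / 3) (P / 2) hk (Or.inl ⟨rfl, rfl⟩)
    have n1 : Nonempty (Fin d → Fin D) := ⟨fun _ => 0⟩
    refine ⟨k, D, ((Fin d → Fin D) × (Fin d → Bool)) × Ω, inferInstance,
      inferInstance, fun ω => A ω.2, fun ω => ω.1.1, fun ω => ω.1.2, hk' k hk2, ?_, ?_, ?_⟩
    · refine hD2.trans ?_
      apply div_le_div_of_nonneg_right _ hεP.le
      nlinarith [mul_pos hC hC]
    · intro x
      have h1 : pr (fun ω : ((Fin d → Fin D) × (Fin d → Bool)) × Ω =>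
          ¬ JLok ε (mul2 (A ω.2) (Smat ω.1.1 ω.1.2)) x) ≤
          pr (fun ω : ((Fin d → Fin D) × (Fin d → Bool)) × Ω =>
            ¬ JLok (ε / 3) (Smat ω.1.1 ω.1.2) x ∨
            ¬ JLok (ε / 3) (A ω.2) (app (Smat ω.1.1 ω.1.2) x)) := by
        apply pr_mono
        intro ω hω
        by_contra hcon
        push Not at hcon
        exact hω (JLok_comp ε hε hε1 _ _ x hcon.1 hcon.2)
      refine h1.trans ?_
      have h2 := pr_prod_or_le
        (fun ω : (Fin d → Fin D) × (Fin d → Bool) => ¬ JLok (ε / 3) (Smat ω.1 ω.2) x)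
        (fun ω (ω' : Ω) => ¬ JLok (ε / 3) (A ω') (app (Smat ω.1 ω.2) x)) (P / 2) (P / 2)
        (by positivity)
        (pr_sketch d D x (ε / 3) (P / 2) (by positivity) (by linarith) ?_)
        (fun ω _ => hJL _)
      · linarith
      · rw [div_le_iff₀ hεP] at hD1
        nlinarith
    · intro ω
      obtain ⟨t, ht, hS⟩ := hcost ω.2
      exact ⟨t, hcost' D k t hDpos hcase le_rfl (hk'' k hk2) ht, hS⟩
  · -- few inputs: no bucketing
    push Not at hcase
    obtain ⟨k, Ω, fΩ, nΩ, A, hk, hJL, hcost⟩ := hmain d ε P hd hε hε1 hP hP2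
    have hk2 := hkbound k ε P hk (Or.inr ⟨rfl, rfl⟩)
    have hmul : ∀ ω, mul2 (A ω) (Smat (fun j : Fin d => j) fun _ => true) = A ω := by
      intro ω
      funext i j
      unfold mul2 Smat
      simp
    refine ⟨k, d, Ω, fΩ, nΩ, A, fun _ j => j, fun _ _ => true, hk' k hk2, ?_, ?_, ?_⟩
    · have : (d : ℝ) ≤ D := by exact_mod_cast hcase.le
      refine this.trans (hD2.trans ?_)
      apply div_le_div_of_nonneg_right _ hεP.le
      nlinarith [mul_pos hC hC]
    · intro x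
      have h1 : (fun ω => ¬ JLok ε (mul2 (A ω) (Smat (fun j : Fin d => j) fun _ => true)) x) =
          fun ω => ¬ JLok ε (A ω) x := by
        funext ω
        rw [hmul]
      rw [h1]
      exact hJL x
    · intro ω
      obtain ⟨t, ht, hS⟩ := hcost ω
      exact ⟨t, hcost' d k t hd le_rfl hcase.le (hk'' k hk2) ht, hS⟩

end Pool.Agent.FJL
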