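import Pool.Agent.Helper32.SJ.Main

set_option autoImplicit false

/-!
Adding zero rows, so that the target dimension is at least `1 / ε ^ 2`.
-/

namespace Pool.Agent.FJL

open Finset Pool.Agent.Helper67.JL

/-- `m` further zero rows -/
def padRows {J : Type} {k : ℕ} (B : Fin k → J → ℝ) (m : ℕ) : Fin (k + m) → J → ℝ :=
  Fin.addCases B fun _ _ => 0

theorem nsq_padRows {I J : Type} [Fintype I] [Fintype J] {k : ℕ} (B : Fin k → I → ℝ) (m : ℕ)
    (A : I → J → ℝ) (x : J → ℝ) :
    nsq (app (mul2 (padRows B m) A) x) = nsq (app (mul2 B A) x) := by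
  rw [app_mul2, app_mul2]
  unfold nsq
  rw [Fin.sum_univ_add]
  have h1 : ∀ i : Fin k, app (padRows B m) (app A x) (Fin.castAdd m i) = app B (app A x) i := by
    intro i
    simp [app, padRows]
  have h2 : ∀ i : Fin m, app (padRows B m) (app A x) (Fin.natAdd k i) = 0 := by
    intro i
    simp [app, padRows]
  simp [h1, h2]

theorem SLP_padRows {J : Type} [Fintype J] [Nonempty J] {k t : ℕ} (B : Fin k → J → ℝ) (m : ℕ)
    (h : SLP t B) : SLP (t + 1) (padRows B m) := by
  classical
  obtain ⟨a, b, f, g, out, h1, h2, h3⟩ := h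
  obtain ⟨j₀⟩ := ‹Nonempty J›
  refine ⟨fun s => if s = t then 0 else a s, fun s => if s = t then 0 else b s,
    fun s => if s = t then Sum.inl j₀ else f s, fun s => if s = t then Sum.inl j₀ else g s,
    Fin.addCases out fun _ => Sum.inr t, ?_, ?_, ?_⟩
  · intro s hs
    by_cases hst : s = t
    · simp [hst]
    · simp only [hst, if_false]
      exact h1 s (by omega)
  · intro i n
    refine Fin.addCases (fun i => ?_) (fun i => ?_) i
    · intro hn
      simp only [Fin.addCases_left] at hn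
      exact (h2 i n hn).trans (Nat.lt_succ_self t)
    · intro hn
      simp only [Fin.addCases_right] at hn
      cases hn
      exact Nat.lt_succ_self t
  · intro x
    obtain ⟨v, hv, hout⟩ := h3 x
    refine ⟨fun s => if s = t then 0 else v s, ?_, ?_⟩
    · intro s hs
      by_cases hst : s = t
      · simp [hst]
      · simp only [hst, if_false]
        have hs' : s < t := by omega
        have key : ∀ z : J ⊕ ℕ, (∀ n, z = Sum.inr n → n < s) →
            Sum.elim x (fun s => if s = t then 0 else v s) z = Sum.elim x v z := by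
          intro z hz
          rcases z with j | n
          · rfl
          · have := hz n rfl
            have hne : n ≠ t := by omega
            simp [hne]
        rw [key _ (h1 s hs').1, key _ (h1 s hs').2]
        exact hv s hs'
    · intro i
      refine Fin.addCases (fun i => ?_) (fun i => ?_) i
      · beta_reduce
        rw [Fin.addCases_left]
        have h4 : ∀ j, padRows B m (Fin.castAdd m i) j = B i j := by
          intro j
          simp [padRows]
        rw [sum_congr rfl fun j _ => by rw [h4 j], ← hout i]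
        rcases hz : out i with j | n
        · rfl
        · have := h2 i n hz
          have hne : n ≠ t := by omega
          simp [hne]
      · beta_reduce
        rw [Fin.addCases_right]
        have h4 : ∀ j, padRows B m (Fin.natAdd k i) j = 0 := by
          intro j
          simp [padRows]
        simp [h4]

/-- Sparse inputs, with the cost measured by the target dimension. -/
theorem main_sparse_k : ∃ (C : ℝ) (c : ℕ), 0 < C ∧ ∀ (d : ℕ) (ε P : ℝ), 1 ≤ d → 0 < ε → ε < 1 →
    0 < P → P ≤ 1 / 2 → ∃ (k D : ℕ) (Ω : Type) (_ : Fintype Ω) (_ : Nonempty Ω)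
      (B : Ω → Fin k → Fin D → ℝ) (h : Ω → Fin d → Fin D) (s : Ω → Fin d → Bool),
      (k : ℝ) ≤ C * Real.log (1 / P) / ε ^ 2 ∧
      (∀ x : Fin d → ℝ, pr (fun ω => ¬ JLok ε (mul2 (B ω) (Smat (h ω) (s ω))) x) ≤ P) ∧
      (D : ℝ) ≤ C * (k / P) * (1 + Real.log d) ^ c ∧
      ∀ ω, ∃ t : ℕ, (t : ℝ) ≤ C * (k / P) * (1 + Real.log d) ^ c ∧ SLP t (B ω) := by
  classical
  obtain ⟨C, c, hC, hmain⟩ := main_sparse
  refine ⟨C + 4, c, by linarith, ?_⟩
  intro d ε P hd hε hε1 hP hP2
  obtain ⟨k, D, Ω, fΩ, nΩ, B, h, s, hk, hD, hJL, hcost⟩ := hmain d ε P hd hε hε1 hP hP2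
  have hε2 : 0 < ε ^ 2 := by positivity
  have hεP : 0 < ε ^ 2 * P := by positivity
  have hεP1 : ε ^ 2 * P ≤ 1 := by nlinarith
  have hlog2 : 0.69 < Real.log 2 := by have := Real.log_two_gt_d9; linarith
  have hlogP : Real.log 2 ≤ Real.log (1 / P) := by
    apply Real.log_le_log (by norm_num)
    rw [le_div_iff₀ hP]
    linarith
  have hl0 : 0 ≤ Real.log d := Real.log_nonneg (by exact_mod_cast hd)
  have hlc : (1 : ℝ) ≤ (1 + Real.log d) ^ c := one_le_pow₀ (by linarith)
  set m := ⌈1 / ε ^ 2⌉₊ with hm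
  have hm1 : 1 / ε ^ 2 ≤ m := Nat.le_ceil _
  have hm2 : (m : ℝ) ≤ 2 / ε ^ 2 := by
    have h1 := (Nat.ceil_lt_add_one (show 0 ≤ 1 / ε ^ 2 by positivity)).le
    rw [← hm] at h1
    have h2 : 1 ≤ 1 / ε ^ 2 := by
      rw [le_div_iff₀ hε2]
      nlinarith
    have h3 : 2 / ε ^ 2 = 1 / ε ^ 2 + 1 / ε ^ 2 := by ring
    rw [h3]
    linarith
  have hkm : 1 / (ε ^ 2 * P) ≤ ((k + m : ℕ) : ℝ) / P := by
    rw [div_le_div_iff₀ hεP hP, one_mul]
    push_cast
    have h1 : 1 ≤ m * ε ^ 2 := by
      rwa [div_le_iff₀ hε2] at hm1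
    have h2 : (0 : ℝ) ≤ k * ε ^ 2 := by positivity
    nlinarith
  have hmain' : C / (ε ^ 2 * P) * (1 + Real.log d) ^ c + 1 ≤
      (C + 4) * (((k + m : ℕ) : ℝ) / P) * (1 + Real.log d) ^ c := by
    have h1 : 1 ≤ 1 / (ε ^ 2 * P) := by
      rw [le_div_iff₀ hεP]
      linarith
    calc C / (ε ^ 2 * P) * (1 + Real.log d) ^ c + 1 ≤
          C / (ε ^ 2 * P) * (1 + Real.log d) ^ c + 1 / (ε ^ 2 * P) * (1 + Real.log d) ^ c := by
          have : 1 * 1 ≤ 1 / (ε ^ 2 * P) * (1 + Real.log d) ^ c :=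
            mul_le_mul h1 hlc zero_le_one (by positivity)
          linarith
      _ = (C + 1) * (1 / (ε ^ 2 * P)) * (1 + Real.log d) ^ c := by ring
      _ ≤ (C + 4) * (((k + m : ℕ) : ℝ) / P) * (1 + Real.log d) ^ c := by
          apply mul_le_mul_of_nonneg_right _ (by positivity)
          apply mul_le_mul _ hkm (by positivity) (by linarith)
          linarith
  have hDne : Nonempty (Fin D) := ⟨h (Classical.arbitrary Ω) ⟨0, hd⟩⟩
  refine ⟨k + m, D, Ω, fΩ, nΩ, fun ω => padRows (B ω) m, h, s, ?_, ?_, ?_, ?_⟩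
  · have h1 : (C + 4) * Real.log (1 / P) / ε ^ 2 =
        C * Real.log (1 / P) / ε ^ 2 + 4 * Real.log (1 / P) / ε ^ 2 := by ring
    rw [h1]
    push_cast
    have h2 : 2 / ε ^ 2 ≤ 4 * Real.log (1 / P) / ε ^ 2 :=
      div_le_div_of_nonneg_right (by linarith) hε2.le
    linarith
  · intro x
    have h1 : (fun ω => ¬ JLok ε (mul2 (padRows (B ω) m) (Smat (h ω) (s ω))) x) =
        fun ω => ¬ JLok ε (mul2 (B ω) (Smat (h ω) (s ω))) x := by
      funext ω
      unfold JLok
      rw [nsq_padRows]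
    rw [h1]
    exact hJL x
  · refine le_trans ?_ hmain'
    have h1 : C / (ε ^ 2 * P) * 1 ≤ C / (ε ^ 2 * P) * (1 + Real.log d) ^ c :=
      mul_le_mul_of_nonneg_left hlc (by positivity)
    linarith
  · intro ω
    obtain ⟨t, ht, hS⟩ := hcost ω
    refine ⟨t + 1, ?_, SLP_padRows (B ω) m hS⟩
    have h1 : ((t + 1 : ℕ) : ℝ) = t + 1 := by push_cast; ring
    rw [h1]
    linarith

end Pool.Agent.FJL
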