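import Pool.Agent.Helper32.FJL.Final

set_option autoImplicit false

/-!
Second moment of the signed bucket sums (one nonzero entry per column), and the composition with
the fast dense transform.
-/

namespace Pool.Agent.FJL

open Finset Pool.Agent.Helper67.JL

/-- second moment of a Rademacher sum -/
theorem ex_linear_sq : ∀ (n : ℕ) (c : Fin n → ℝ),
    ex (fun s : Fin n → Bool => (∑ i, sg (s i) * c i) ^ 2) = ∑ i, c i ^ 2 := by
  intro n
  induction n with
  | zero =>
    intro c
    simp [ex]
  | succ n ih =>
    intro c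
    rw [ex_fin_succ]
    have h : (fun s : Fin n → Bool =>
        ((∑ i, sg ((Fin.cons true s : Fin (n + 1) → Bool) i) * c i) ^ 2 +
          (∑ i, sg ((Fin.cons false s : Fin (n + 1) → Bool) i) * c i) ^ 2) / 2) =
        fun s => c 0 ^ 2 + (∑ i, sg (s i) * c i.succ) ^ 2 := by
      funext s
      rw [Fin.sum_univ_succ, Fin.sum_univ_succ]
      simp only [Fin.cons_zero, Fin.cons_succ, sg_true, sg_false]
      ring
    rw [h, ex_add, ex_const, ih, Fin.sum_univ_succ]

/-- second moment of a Rademacher chaos, written over the pairs `i < j` -/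
theorem ex_chaos_sq : ∀ (n : ℕ) (a : Fin n → Fin n → ℝ),
    ex (fun s : Fin n → Bool =>
      (∑ i, ∑ j, if i < j then sg (s i) * sg (s j) * a i j else 0) ^ 2) =
      ∑ i, ∑ j, if i < j then a i j ^ 2 else 0 := by
  intro n
  induction n with
  | zero =>
    intro a
    simp [ex]
  | succ n ih =>
    intro a
    rw [ex_fin_succ]
    have hexp : ∀ (b : Bool) (s : Fin n → Bool),
        (∑ i, ∑ j, if i < j then sg ((Fin.cons b s : Fin (n + 1) → Bool) i) *
          sg ((Fin.cons b s : Fin (n + 1) → Bool) j) * a i j else 0) =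
        sg b * (∑ j, sg (s j) * a 0 j.succ) +
          ∑ i, ∑ j, if i < j then sg (s i) * sg (s j) * a (Fin.succ i) (Fin.succ j) else 0 := by
      intro b s
      rw [Fin.sum_univ_succ]
      congr 1
      · rw [Fin.sum_univ_succ, mul_sum]
        simp only [Fin.cons_zero, Fin.cons_succ, lt_self_iff_false, if_false, zero_add,
          Fin.succ_pos, if_true]
        apply sum_congr rfl
        intro j _
        ring
      · apply sum_congr rfl
        intro i _
        rw [Fin.sum_univ_succ]
        simp only [Fin.cons_succ, Fin.succ_lt_succ_iff, Fin.not_lt_zero, if_false, zero_add]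
    have h : (fun s : Fin n → Bool =>
        ((∑ i, ∑ j, if i < j then sg ((Fin.cons true s : Fin (n + 1) → Bool) i) *
            sg ((Fin.cons true s : Fin (n + 1) → Bool) j) * a i j else 0) ^ 2 +
          (∑ i, ∑ j, if i < j then sg ((Fin.cons false s : Fin (n + 1) → Bool) i) *
            sg ((Fin.cons false s : Fin (n + 1) → Bool) j) * a i j else 0) ^ 2) / 2) =
        fun s => (∑ j, sg (s j) * a 0 j.succ) ^ 2 +
          (∑ i, ∑ j, if i < j then sg (s i) * sg (s j) * a (Fin.succ i) (Fin.succ j) else 0) ^ 2 := by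
      funext s
      rw [hexp, hexp]
      simp only [sg_true, sg_false]
      ring
    rw [h, ex_add, ex_linear_sq, ih, Fin.sum_univ_succ]
    congr 1
    · rw [Fin.sum_univ_succ]
      simp
    · apply sum_congr rfl
      intro i _
      rw [Fin.sum_univ_succ]
      simp [Fin.succ_lt_succ_iff]

/-- two different coordinates collide with probability `1 / D` -/
theorem ex_collision (d D : ℕ) [NeZero D] (i j : Fin d) (hij : i ≠ j) :
    ex (fun h : Fin d → Fin D => if h i = h j then (1 : ℝ) else 0) = 1 / D := by
  have hD : (D : ℝ) ≠ 0 := Nat.cast_ne_zero.mpr (NeZero.ne D)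
  have h1 : ∀ c : Fin D, ex (fun h : Fin d → Fin D => if h i = h j then (1 : ℝ) else 0) =
      ex (fun h : Fin d → Fin D => if c = h j - h i then (1 : ℝ) else 0) := by
    intro c
    rw [ex_equiv (Equiv.addRight (Pi.single i c : Fin d → Fin D))]
    congr 1
    funext h
    have h2 : (h + (Pi.single i c : Fin d → Fin D)) i = h i + c := by simp
    have h3 : (h + (Pi.single i c : Fin d → Fin D)) j = h j := by
      simp [Pi.single_eq_of_ne hij.symm]
    simp only [Equiv.coe_addRight, h2, h3]
    congr 1
    apply propext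
    constructor
    · intro h4
      rw [← h4]
      simp
    · intro h4
      rw [h4]
      simp
  have h2 : ∑ c : Fin D, ex (fun h : Fin d → Fin D => if h i = h j then (1 : ℝ) else 0) =
      ∑ c : Fin D, ex (fun h : Fin d → Fin D => if c = h j - h i then (1 : ℝ) else 0) :=
    sum_congr rfl fun c _ => h1 c
  rw [← ex_sum univ (fun c (h : Fin d → Fin D) => if c = h j - h i then (1 : ℝ) else 0)] at h2
  simp only [sum_ite_eq', mem_univ, if_true, sum_const, card_univ, Fintype.card_fin,
    nsmul_eq_mul] at h2
  rw [ex_const] at h2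
  field_simp
  linarith

/-- The deviation of the squared norm of the signed bucket sums. -/
theorem nsq_Smat_sub (d D : ℕ) (h : Fin d → Fin D) (s : Fin d → Bool) (x : Fin d → ℝ) :
    nsq (app (Smat h s) x) - nsq x =
      2 * ∑ i, ∑ j, if i < j then sg (s i) * sg (s j) *
        (if h i = h j then x i * x j else 0) else 0 := by
  have h1 : nsq (app (Smat h s) x) =
      ∑ i, ∑ j, sg (s i) * sg (s j) * (if h i = h j then x i * x j else 0) := by
    unfold nsq app Smat
    have h2 : ∀ κ : Fin D, (∑ j, (if h j = κ then sg (s j) else 0) * x j) ^ 2 =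
        ∑ i, ∑ j, if h i = κ then (if h j = κ then sg (s i) * sg (s j) * (x i * x j) else 0)
          else 0 := by
      intro κ
      rw [sq, sum_mul_sum]
      apply sum_congr rfl
      intro i _
      apply sum_congr rfl
      intro j _
      by_cases hi : h i = κ <;> by_cases hj : h j = κ <;> simp [hi, hj]
      ring
    rw [sum_congr rfl fun κ _ => h2 κ, sum_comm]
    apply sum_congr rfl
    intro i _
    rw [sum_comm]
    apply sum_congr rfl
    intro j _
    rw [sum_ite_eq univ (h i)]
    by_cases hij : h i = h j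
    · simp [hij]
    · simp [hij, Ne.symm hij]
  rw [h1]
  have h3 : ∀ f : Fin d → Fin d → ℝ, (∀ i j, f i j = f j i) →
      ∑ i, ∑ j, f i j = ∑ i, f i i + 2 * ∑ i, ∑ j, if i < j then f i j else 0 := by
    intro f hf
    have h4 : ∀ i j, f i j = (if i = j then f i i else 0) + ((if i < j then f i j else 0) +
        (if j < i then f j i else 0)) := by
      intro i j
      rcases lt_trichotomy i j with hlt | heq | hgt
      · simp [hlt, hlt.ne, hlt.not_gt]
      · simp [heq]
      · simp [hgt, hgt.ne', hgt.not_gt, hf i j]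
    rw [sum_congr rfl fun i _ => sum_congr rfl fun j _ => h4 i j]
    simp only [sum_add_distrib, sum_ite_eq, mem_univ, if_true]
    rw [sum_comm (f := fun i j => if j < i then f j i else 0)]
    ring
  rw [h3 _ (by
    intro i j
    by_cases hij : h i = h j
    · simp only [hij, if_true]
      ring
    · simp [hij, Ne.symm hij])]
  have h5 : ∑ i, sg (s i) * sg (s i) * (if h i = h i then x i * x i else 0) = nsq x := by
    unfold nsq
    apply sum_congr rfl
    intro i _
    rw [sg_mul_self]
    simp
    ring
  rw [h5]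
  ring

/-- The mean square deviation of the squared norm of the signed bucket sums. -/
theorem ex_sketch (d D : ℕ) [NeZero D] (x : Fin d → ℝ) :
    ex (fun ω : (Fin d → Fin D) × (Fin d → Bool) =>
      (nsq (app (Smat ω.1 ω.2) x) - nsq x) ^ 2) ≤ 2 * nsq x ^ 2 / D := by
  have hD : (0 : ℝ) < D := Nat.cast_pos.mpr (Nat.pos_of_ne_zero (NeZero.ne D))
  rw [ex_prod]
  have h1 : ∀ h : Fin d → Fin D, ex (fun s : Fin d → Bool =>
      (nsq (app (Smat h s) x) - nsq x) ^ 2) =
      4 * ∑ i, ∑ j, if i < j then (if h i = h j then (1 : ℝ) else 0) * (x i ^ 2 * x j ^ 2)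
        else 0 := by
    intro h
    have h2 : (fun s : Fin d → Bool => (nsq (app (Smat h s) x) - nsq x) ^ 2) =
        fun s => 4 * (∑ i, ∑ j, if i < j then sg (s i) * sg (s j) *
          (if h i = h j then x i * x j else 0) else 0) ^ 2 := by
      funext s
      rw [nsq_Smat_sub]
      ring
    rw [h2, ex_mul_left, ex_chaos_sq d (fun i j => if h i = h j then x i * x j else 0)]
    congr 1
    apply sum_congr rfl
    intro i _
    apply sum_congr rfl
    intro j _
    by_cases hij : i < j
    · by_cases hh : h i = h j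
      · simp [hij, hh]
        ring
      · simp [hij, hh]
    · simp [hij]
  have h3 : (fun h : Fin d → Fin D => ex (fun s : Fin d → Bool =>
      (nsq (app (Smat h s) x) - nsq x) ^ 2)) =
      fun h => 4 * ∑ i, ∑ j, if i < j then (if h i = h j then (1 : ℝ) else 0) *
        (x i ^ 2 * x j ^ 2) else 0 := funext h1
  simp only at h3 ⊢
  rw [h3, ex_mul_left, ex_sum univ (fun i (h : Fin d → Fin D) => ∑ j, if i < j then
    (if h i = h j then (1 : ℝ) else 0) * (x i ^ 2 * x j ^ 2) else 0)]
  have h4 : ∀ i : Fin d, ex (fun h : Fin d → Fin D => ∑ j, if i < j then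
      (if h i = h j then (1 : ℝ) else 0) * (x i ^ 2 * x j ^ 2) else 0) =
      ∑ j, if i < j then 1 / (D : ℝ) * (x i ^ 2 * x j ^ 2) else 0 := by
    intro i
    rw [ex_sum univ (fun j (h : Fin d → Fin D) => if i < j then
      (if h i = h j then (1 : ℝ) else 0) * (x i ^ 2 * x j ^ 2) else 0)]
    apply sum_congr rfl
    intro j _
    by_cases hij : i < j
    · simp only [hij, if_true]
      rw [ex_mul_right, ex_collision d D i j hij.ne]
    · simp only [hij, if_false]
      exact ex_const 0
  rw [sum_congr rfl fun i _ => h4 i]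
  have h5 : nsq x ^ 2 = ∑ i, ∑ j, x i ^ 2 * x j ^ 2 := by
    unfold nsq
    rw [sq, sum_mul_sum]
  have h6 : 2 * ∑ i : Fin d, ∑ j : Fin d, (if i < j then x i ^ 2 * x j ^ 2 else 0) ≤
      nsq x ^ 2 := by
    have h7 : ∑ i : Fin d, ∑ j : Fin d, (if i < j then x i ^ 2 * x j ^ 2 else 0) =
        ∑ i : Fin d, ∑ j : Fin d, (if j < i then x i ^ 2 * x j ^ 2 else 0) := by
      rw [sum_comm]
      apply sum_congr rfl
      intro i _
      apply sum_congr rfl
      intro j _
      rw [mul_comm]
    rw [two_mul]
    nth_rewrite 2 [h7]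
    rw [← sum_add_distrib, h5]
    apply sum_le_sum
    intro i _
    rw [← sum_add_distrib]
    apply sum_le_sum
    intro j _
    have h8 : 0 ≤ x i ^ 2 * x j ^ 2 := by positivity
    rcases lt_trichotomy i j with hlt | heq | hgt
    · simp [hlt, hlt.not_gt]
    · simp only [heq, lt_self_iff_false, if_false, add_zero]
      positivity
    · simp [hgt, hgt.not_gt]
  have h9 : ∑ i : Fin d, ∑ j : Fin d, (if i < j then 1 / (D : ℝ) * (x i ^ 2 * x j ^ 2) else 0) =
      1 / (D : ℝ) * ∑ i : Fin d, ∑ j : Fin d, (if i < j then x i ^ 2 * x j ^ 2 else 0) := by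
    rw [mul_sum]
    apply sum_congr rfl
    intro i _
    rw [mul_sum]
    apply sum_congr rfl
    intro j _
    split_ifs <;> simp
  rw [h9]
  rw [show 4 * (1 / (D : ℝ) * ∑ i : Fin d, ∑ j : Fin d, (if i < j then x i ^ 2 * x j ^ 2 else 0)) =
    2 * (2 * ∑ i : Fin d, ∑ j : Fin d, (if i < j then x i ^ 2 * x j ^ 2 else 0)) / D by ring]
  apply div_le_div_of_nonneg_right _ hD.le
  linarith

end Pool.Agent.FJL
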